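import Pool.Agent.H30.VM.TargetsB
import Pool.Agent.H97.VG.KY

/-!
Module KYT of vmp_modules.
-/

set_option autoImplicit false

namespace Pool.Agent.H77.VMP

open MvPolynomial SC Pool.Agent.H27.LV Pool.Agent.H17.VG Pool.Agent.H30.VM Pool.Agent.H97.VG
open Pool.Agent.H17.CI (Tup IlT PQT TxT frmT upT RatT)

/-- KYT -/
theorem pf_KYT (hRS : Pool.Agent.H17.VG.T_RS) : Pool.Agent.H30.VM.T_KYT := by
  intro R K _ _ _ _ n ι i₀ e F D x y ξ hS hx hy Q G τ τ' l l' a a' hQ h1 h2 h3 h4 h5
  constructor
  · refine ⟨τ.1 a' - τ'.1 a, ?_⟩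
    rw [br2, h2, h5, opV_smul, opV_smul, h2, h5, sub_smul, smul_smul, smul_smul, mul_comm a a']
    abel
  · refine ⟨fun i => τ.1 (l' i) - τ'.1 (l i), fun i => opF τ (lin ξ * Q i) - opF τ' (G i) -
      C (l' i) * G i + C (l i) * (lin ξ * Q i), ⟨?_, ?_⟩, ?_⟩
    · simp only
      rw [h1.1, h3.1, map_zero, map_zero, sub_zero]
    · intro i
      have e1 : opF τ' (F i) = lin ξ * Q i - C (l' i) * F i := by
        have e0 : opF τ' (F i) + C (l' i) * F i = lin ξ * Q i := h1.2 i
        rw [← e0]; ring
      have e2 : opF τ (F i) = G i - C (l i) * F i := by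
        rw [← h3.2 i]; ring
      have e3 : ∀ (σ : Op R K n) (A B : MvPolynomial (Fin (n + 1)) K) (c : K),
          opF σ (A - C c * B) = opF σ A - C (σ.1 c) * B - C c * opF σ B := by
        intro σ A B c
        have e4 : A - C c * B = A + C (-c) * B := by rw [C_neg]; ring
        rw [e4, opF_add, opF_mul, opF_C, map_neg, C_neg, C_neg]
        ring
      rw [br1, e1, e2, e3, e3, e1, e2, C_sub]
      ring
    · intro i
      have hl : res x y (lin ξ) = 0 := by
        rw [res_lin, hx, hy, Polynomial.C_0, zero_mul, zero_add]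
      have hG' : res x y (lin ξ * Q i) = 0 := by rw [res_mul, hl, zero_mul]
      have hd : ∀ w : Fin (n + 1) → K, res x y (dir w (lin ξ * Q i)) =
          Polynomial.C (∑ i, ξ i * w i) * res x y (Q i) := by
        intro w
        rw [dir_mul, res_add, res_mul, res_mul, hl, zero_mul, add_zero, dir_lin, res_C]
      have e1 := re' τ (lin ξ * Q i) x y
      rw [hG', pD_zero, h5, dir_smul, res_mul, hd, hd, hx, Polynomial.C_0, zero_mul, mul_zero,
        add_zero] at e1
      have hG : (G i).IsHomogeneous (e i + 1) := by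
        rw [← h3.2 i]
        refine (opF_homog τ (F i) (e i + 1) (hS.homog i)).add ?_
        have h3 := (isHomogeneous_C (Fin (n + 1)) (l i)).mul (hS.homog i)
        rwa [zero_add] at h3
      have h6 : res x y (dir x (G i)) = 0 :=
        ((hRS K n (e i + 1) (G i) 0 0 0 0 x y 0 0).2.2.2.2.2.2.2.2.2.2.2.2.2 hG (h4 i)).1
      have e2 := re' τ' (G i) x y
      rw [h4 i, pD_zero, h2, dir_smul, res_mul, h6, mul_zero, add_zero] at e2
      have h7 : ∀ A B C' D' : MvPolynomial (Fin (n + 1)) K, res x y (A - B - C' + D') =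
          res x y A - res x y B - res x y C' + res x y D' := by
        intro A B C' D'
        unfold res
        rw [map_add, map_sub, map_sub]
      simp only
      rw [h7, res_mul x y (C (l' i)), h4 i, res_mul x y (C (l i)), hG', mul_zero, mul_zero]
      linear_combination e2 - e1

end Pool.Agent.H77.VMP
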