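import Pool.Agent.H30.VM.TargetsD
import Pool.Agent.H27.LV.All

/-!
# MP_70ba79_ag: row SU4 of the board `vmp_modules`: summation over all places
-/

set_option autoImplicit false

namespace Pool.Agent.H77.VMP

open MvPolynomial SC Pool.Agent.H27.LV Pool.Agent.H17.VG Pool.Agent.H30.VM

theorem pf_SU4 : T_SU4 := by
  classical
  intro k K _ _ _ _ _ _ htr n N d D hD x u hu S κ _ P c0 hP0 h1 h2
  -- the finite set of places
  have f1 := (pfm k K htr u).1
  have f2 := pfi k K htr (Fin (n + 1)) x
  have f3 := pfi k K htr κ (fun c => P c / P c0)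
  have f4 := (pfm k K htr (P c0)).1
  have f5 := tDFI k K htr D hD
  obtain ⟨T, hT⟩ : ∃ T : Finset (DV k K), T = S ∪ (f1.toFinset ∪ (f2.toFinset ∪ (f3.toFinset ∪
    (f4.toFinset ∪ f5.toFinset)))) := ⟨_, rfl⟩
  have hST : S ⊆ T := by rw [hT]; exact Finset.subset_union_left
  have hout : ∀ v, v ∉ T → v.ord u = 0 ∧ poleOrder v x = 0 ∧
      poleOrder v (fun c => P c / P c0) = 0 ∧ v.ord (P c0) = 0 ∧ ordD v D = 0 := by
    intro v hv
    rw [hT] at hv
    simp only [Finset.mem_union, Set.Finite.mem_toFinset, Set.mem_ofPred_eq, not_or,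
      not_not] at hv
    exact ⟨hv.2.1, hv.2.2.1, hv.2.2.2.1, hv.2.2.2.2.1, hv.2.2.2.2.2⟩
  have e1 : ∑ v ∈ T, v.ord u = 0 := by
    rw [← finsum_eq_sum_of_support_subset _ (s := T) ?_]
    · exact (pfm k K htr u).2
    · intro v hv
      by_contra hc
      exact hv (hout v hc).1
  have e2 : ((deg k x : ℕ) : ℤ) = ∑ v ∈ T, (poleOrder v x : ℤ) := by
    rw [cast_deg htr]
    apply finsum_eq_sum_of_support_subset
    intro v hv
    by_contra hc
    apply hv
    simp only [(hout v hc).2.1]
    rfl
  have e3 : ((deg k (fun c => P c / P c0) : ℕ) : ℤ) =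
      ∑ v ∈ T, (poleOrder v (fun c => P c / P c0) : ℤ) := by
    rw [cast_deg htr]
    apply finsum_eq_sum_of_support_subset
    intro v hv
    by_contra hc
    apply hv
    simp only [(hout v hc).2.2.1]
    rfl
  have e4 : ∑ v ∈ T, v.ord (P c0) = 0 := by
    rw [← finsum_eq_sum_of_support_subset _ (s := T) ?_]
    · exact (pfm k K htr (P c0)).2
    · intro v hv
      by_contra hc
      exact hv (hout v hc).2.2.2.1
  have e5 : canDeg D = - ∑ v ∈ T, ordD v D := by
    unfold canDeg
    rw [finsum_eq_sum_of_support_subset _ (s := T) ?_]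
    intro v hv
    by_contra hc
    exact hv (hout v hc).2.2.2.2
  -- the local inequality
  have key : ∀ (v : DV k K) (b : ℤ), (∀ c, ge v b (P c)) →
      (poleOrder v (fun c => P c / P c0) : ℤ) ≤ v.ord (P c0) - b := by
    intro v b hb
    have h3 : b ≤ v.ord (P c0) := (hb c0).resolve_left hP0
    have h4 := poleOrder_le v (fun c => P c / P c0) (v.ord (P c0) - b).toNat (fun c => by
      rw [Int.toNat_of_nonneg (by omega)]
      by_cases hc : P c = 0
      · rw [hc, zero_div, v.ord_zero]
        omega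
      · rw [v.ord_div hc hP0]
        have := (hb c).resolve_left hc
        omega)
    have h5 := Int.toNat_of_nonneg (show 0 ≤ v.ord (P c0) - b by omega)
    omega
  have hloc : ∀ v ∈ T, (poleOrder v (fun c => P c / P c0) : ℤ) ≤
      v.ord (P c0) - ordD v D + N * poleOrder v x + (if v ∈ S then 1 else 0) -
        (v.ord u + d * poleOrder v x) := by
    intro v _
    by_cases hv : v ∈ S
    · rw [if_pos hv]
      have := key v _ (h2 v)
      linarith
    · rw [if_neg hv]
      have := key v _ (fun c => h1 v c hv)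
      linarith
  have hsum := Finset.sum_le_sum hloc
  simp only [Finset.sum_add_distrib, Finset.sum_sub_distrib, ← Finset.mul_sum] at hsum
  rw [← e3, e4, e1, ← e2] at hsum
  have e6 : ∑ v ∈ T, (if v ∈ S then (1 : ℤ) else 0) = S.card := by
    rw [Finset.sum_ite_mem, Finset.inter_eq_right.2 hST]
    simp
  rw [e6] at hsum
  rw [e5]
  linarith

end Pool.Agent.H77.VMP
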