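import Pool.Agent.H30.VM.TargetsB
import Pool.Agent.H97.VG.KY

/-!
Module WDT of vmp_modules.
-/

set_option autoImplicit false

namespace Pool.Agent.H77.VMP

open MvPolynomial SC Pool.Agent.H27.LV Pool.Agent.H17.VG Pool.Agent.H30.VM Pool.Agent.H97.VG
open Pool.Agent.H17.CI (Tup IlT PQT TxT frmT upT RatT)

/-- symbols are linear in the operator -/
theorem sym_lin {R K : Type} [Field R] [Field K] [Algebra R K] {n : ℕ} {ι : Type} {i₀ : ι}
    {F : Tup ι K n} {τ τ' : Op R K n} {l l' : ι → K} {G G' : Tup ι K n} (a b : K)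
    (h1 : Sym i₀ F τ l G) (h2 : Sym i₀ F τ' l' G') :
    Sym i₀ F (a • τ + b • τ') (a • l + b • l') (a • G + b • G') := by
  refine ⟨?_, ?_⟩
  · have h3 : (a • l + b • l') i₀ = a * l i₀ + b * l' i₀ := rfl
    rw [h3, h1.1, h2.1, mul_zero, mul_zero, add_zero]
  · intro i
    rw [opF_lin]
    have h3 : (a • l + b • l') i = a * l i + b * l' i := rfl
    have h4 : (a • G + b • G') i = a • G i + b • G' i := rfl
    rw [h3, h4, ← h1.2 i, ← h2.2 i, smul_eq_C_mul, smul_eq_C_mul, C_add, C_mul, C_mul]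
    ring

/-- WDT -/
theorem pf_WDT : Pool.Agent.H30.VM.T_WDT := by
  intro R K _ _ _ n ι i₀ e F D hS τ τ' l l' G h1 h2
  have h0 := sym_lin 1 (-1) h1 h2
  have hz : ((1 : K) • G + (-1 : K) • G) = 0 := by
    rw [one_smul, neg_one_smul, add_neg_cancel]
  rw [hz] at h0
  obtain ⟨h3, -, c, h4⟩ := hS.ker _ _ h0
  refine ⟨c, fun z => ?_⟩
  have h5 : opV ((1 : K) • τ + (-1 : K) • τ') z = c • fun i => D (z i) := by
    funext i
    unfold opV
    rw [h3, h4]
    rw [Finset.sum_eq_zero, sub_zero]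
    · rfl
    · intro j _
      rw [Matrix.zero_apply, zero_mul]
  rw [opV_lin, one_smul, neg_one_smul] at h5
  rw [← h5]
  abel

end Pool.Agent.H77.VMP
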